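import Pool.Agent.L7h4.SF.Stm

/-!
# Project SF, part C3: a transvection and conjugating elements give the certificate
-/

set_option autoImplicit false

namespace Pool.Agent.L7h77.SF

open Matrix Pool.Agent.L7h4.F5 Pool.Agent.L7h4.SF

theorem s_C3 : S_C3 := by
  intro n G w φ g g' hw hφ hT hg hg' h1 hdet
  set E : Mat n := Matrix.of fun k => φ ᵥ* g k with hE
  have hu : IsUnit E.det := isUnit_iff_ne_zero.2 hdet
  have hEE : E⁻¹ * E = 1 := Matrix.nonsing_inv_mul E hu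
  have hEE' : E * E⁻¹ = 1 := Matrix.mul_nonsing_inv E hu
  have h2 : ∀ k, g' k * g k = 1 := fun k => mul_eq_one_comm.mp (h1 k)
  refine ⟨E⁻¹, E, hEE, hEE', fun k => ⟨E *ᵥ (g' k *ᵥ w), ?_, ?_, ?_⟩⟩
  · intro h0
    apply hw
    have h3 : E⁻¹ *ᵥ (E *ᵥ (g' k *ᵥ w)) = 0 := by rw [h0, Matrix.mulVec_zero]
    rw [Matrix.mulVec_mulVec, hEE, Matrix.one_mulVec] at h3
    have h4 : g k *ᵥ (g' k *ᵥ w) = 0 := by rw [h3, Matrix.mulVec_zero]
    rwa [Matrix.mulVec_mulVec, h1, Matrix.one_mulVec] at h4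
  · have h3 : (E *ᵥ (g' k *ᵥ w)) k = (φ ᵥ* g k) ⬝ᵥ (g' k *ᵥ w) := rfl
    rw [h3, ← Matrix.dotProduct_mulVec, Matrix.mulVec_mulVec, h1, Matrix.one_mulVec, hφ]
  · have h3 : (Pi.single k 1 : Fin n → ℂ) ᵥ* E = φ ᵥ* g k := by
      rw [Matrix.single_one_vecMul]
      rfl
    have h4 : E⁻¹ * (1 + vecMulVec (E *ᵥ (g' k *ᵥ w)) (Pi.single k 1)) * E =
        g' k * (1 + vecMulVec w φ) * g k := by
      rw [Matrix.mul_add, Matrix.add_mul, Matrix.mul_one, hEE, Matrix.mul_vecMulVec,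
        Matrix.vecMulVec_mul, h3, Matrix.mulVec_mulVec, hEE, Matrix.one_mulVec,
        Matrix.mul_add, Matrix.add_mul, Matrix.mul_one, h2, Matrix.mul_vecMulVec,
        Matrix.vecMulVec_mul]
    rw [h4]
    exact G.mul_mem (G.mul_mem (hg' k) hT) (hg k)

end Pool.Agent.L7h77.SF
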